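import Pool.Agent.Helper67.LPath.Defs

set_option autoImplicit false

/-!
Piece L1a (MP_fc92c5, helper67): pass to the connected component (finite, connected).
-/

namespace Pool.Agent.Helper65.LPath

open Pool.Agent.Helper67.LPath

/-- all vertices of a chain are reachable from each other -/
theorem reach_of_chain {V : Type} (G : SimpleGraph V) :
    ∀ (l : List V), l.IsChain G.Adj → ∀ x ∈ l, ∀ y ∈ l, G.Reachable x y := by
  intro l
  induction l with
  | nil => intro _ x hx; simp at hx
  | cons a t ih =>
    intro hc x hx y hy
    have hct : t.IsChain G.Adj := hc.tail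
    -- the head is reachable from every vertex of the tail
    have key : ∀ z ∈ t, G.Reachable a z := by
      intro z hz
      cases t with
      | nil => simp at hz
      | cons b r =>
        have hab : G.Adj a b := (List.isChain_cons_cons.1 hc).1
        exact hab.reachable.trans (ih hct b (by simp) z hz)
    rcases List.mem_cons.1 hx with hxa | hxt
    · subst hxa
      rcases List.mem_cons.1 hy with hya | hyt
      · subst hya
        exact SimpleGraph.Reachable.refl _
      · exact key y hyt
    · rcases List.mem_cons.1 hy with hya | hyt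
      · subst hya
        exact (key x hxt).symm
      · exact ih hct x hxt y hyt

/-- a vertex of a chain with at least two vertices has a neighbour -/
theorem adj_of_chain {V : Type} (G : SimpleGraph V) :
    ∀ (l : List V), l.IsChain G.Adj → 2 ≤ l.length → ∀ x ∈ l, ∃ y, G.Adj x y := by
  intro l
  induction l with
  | nil => intro _ _ x hx; simp at hx
  | cons a t ih =>
    intro hc h2 x hx
    cases t with
    | nil => simp at h2
    | cons b r =>
      have hab : G.Adj a b := (List.isChain_cons_cons.1 hc).1
      rcases List.mem_cons.1 hx with rfl | hx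
      · exact ⟨b, hab⟩
      · rcases List.mem_cons.1 hx with rfl | hx
        · exact ⟨a, hab.symm⟩
        · cases r with
          | nil => simp at hx
          | cons c r =>
            exact ih hc.tail (by simp) x (List.mem_cons_of_mem _ hx)

theorem component {V : Type} (G : SimpleGraph V) (F : Set V) (hF : F.Finite)
    (hadj : ∀ x y, G.Adj x y → x ∈ F) (k : ℕ) (P : Fin k → List V)
    (hP : ∀ i, IsLongest G (P i)) (hlen : ∀ i, 2 ≤ (P i).length)
    (hmeet : ∀ i j, ∃ v, v ∈ P i ∧ v ∈ P j) (hno : ∀ v, ∃ i, v ∉ P i) (v0 : V) :
    ∃ (V' : Type) (_ : Fintype V') (G' : SimpleGraph V'), G'.Connected ∧ ¬ PropP k G' := by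
  classical
  obtain ⟨i0, -⟩ := hno v0
  obtain ⟨x0, hx0, -⟩ := hmeet i0 i0
  let C : Set V := {v | G.Reachable x0 v}
  have hx0C : x0 ∈ C := SimpleGraph.Reachable.refl x0
  have hPC : ∀ i, ∀ v ∈ P i, v ∈ C := by
    intro i v hv
    obtain ⟨z, hz1, hz2⟩ := hmeet i0 i
    exact (reach_of_chain G (P i0) (hP i0).1.2.2 x0 hx0 z hz1).trans
      (reach_of_chain G (P i) (hP i).1.2.2 z hz2 v hv)
  have hCF : C ⊆ F := by
    intro v hv
    by_cases hvx : v = x0
    · subst hvx
      obtain ⟨y, hy⟩ := adj_of_chain G (P i0) (hP i0).1.2.2 (hlen i0) v hx0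
      exact hadj _ _ hy
    · have hv' : G.Reachable v x0 := SimpleGraph.Reachable.symm hv
      obtain ⟨w⟩ := hv'
      cases w with
      | nil => exact absurd rfl hvx
      | cons h _ => exact hadj _ _ h
  have hCfin : C.Finite := hF.subset hCF
  have : Fintype C := hCfin.fintype
  refine ⟨C, inferInstance, G.induce C, ?_, ?_⟩
  · -- connected
    have : Nonempty C := ⟨⟨x0, hx0C⟩⟩
    have hreach : ∀ v : C, (G.induce C).Reachable ⟨x0, hx0C⟩ v := by
      have main : ∀ (a b : V) (w : G.Walk a b) (ha : a ∈ C) (hb : b ∈ C),
          (G.induce C).Reachable ⟨a, ha⟩ ⟨b, hb⟩ := by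
        intro a b w
        induction w with
        | nil => intro _ _; exact SimpleGraph.Reachable.refl _
        | cons h p ih =>
          rename_i a c b
          intro ha hb
          have hc : c ∈ C := SimpleGraph.Reachable.trans (show G.Reachable x0 a from ha) h.reachable
          have hadj' : (G.induce C).Adj ⟨a, ha⟩ ⟨c, hc⟩ := h
          exact hadj'.reachable.trans (ih hc hb)
      rintro ⟨v, hv⟩
      obtain ⟨w⟩ := (show G.Reachable x0 v from hv)
      exact main x0 v w hx0C hv
    rw [SimpleGraph.connected_iff]
    exact ⟨fun a b => (hreach a).symm.trans (hreach b), inferInstance⟩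
  · intro hprop
    have hex : ∀ i, ∃ l : List C, l.map Subtype.val = P i := by
      intro i
      refine ⟨(P i).pmap (fun v hv => (⟨v, hv⟩ : C)) (hPC i), ?_⟩
      rw [List.map_pmap]
      simp
    choose Q hQ using hex
    have hmap : ∀ (m : List C), IsPathL (G.induce C) m → IsPathL G (m.map Subtype.val) := by
      rintro m ⟨h1, h2, h3⟩
      refine ⟨fun h => h1 (List.map_eq_nil_iff.1 h), h2.map Subtype.val_injective, ?_⟩
      rw [List.isChain_map]
      exact h3
    obtain ⟨v, hv⟩ := hprop Q (by
      intro i
      refine ⟨⟨?_, ?_, ?_⟩, ?_⟩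
      · intro h
        have := (hP i).1.1
        rw [← hQ i, h] at this
        exact this rfl
      · have := (hP i).1.2.1
        rw [← hQ i] at this
        exact List.Nodup.of_map _ this
      · have := (hP i).1.2.2
        rw [← hQ i, List.isChain_map] at this
        exact this
      · intro m hm
        have h1 := (hP i).2 _ (hmap m hm)
        rw [← hQ i, List.length_map, List.length_map] at h1
        exact h1)
    obtain ⟨i, hi⟩ := hno v.1
    apply hi
    rw [← hQ i]
    exact List.mem_map_of_mem (hv i)

end Pool.Agent.Helper65.LPath
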